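import Pool.Agent.Work.MP_e60d4a_nt.OmegaCase

/-!
# Almost all moduli

For almost all `n` the set `A_n` meets at least `n exp (-10 (log log n)²)` residue classes
modulo `n`: among the integers in `(N, 2N]` at most `4 N / log N` are exceptional, once `N ≥ N₀`.
-/

set_option autoImplicit false

namespace Pool.Agent.Results.MP_e60d4a_nt.AlmostAll

open Finset Pool.Agent.PiSq

theorem result : ∃ N₀ : ℕ, ∀ N : ℕ, N₀ ≤ N →
    (((Ioc N (2 * N)).filter
      (fun n => (R n : ℝ) < n * Real.exp (-10 * Real.log (Real.log n) ^ 2))).card : ℝ) ≤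
      4 * (N / Real.log N) :=
  Filter.eventually_atTop.1 omega_case

end Pool.Agent.Results.MP_e60d4a_nt.AlmostAll
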