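import Pool.Agent.Work.MP_e60d4a_nt.PrimeCase

/-!
# Almost all prime moduli

For almost all primes `q` the set `A_q` meets at least `δ q / log q` residue classes modulo `q`:
among the primes in `(N, 2N]` at most `8 δ N / log N` are exceptional, once `N ≥ N₀(δ)`.
-/

set_option autoImplicit false

namespace Pool.Agent.Results.MP_e60d4a_nt.AlmostAllPrimes

open Finset Pool.Agent.PiSq

theorem result : ∀ δ : ℝ, 0 < δ → ∃ N₀ : ℕ, ∀ N : ℕ, N₀ ≤ N →
    (((Ioc N (2 * N)).filter
      (fun q => q.Prime ∧ (R q : ℝ) < δ * (q / Real.log q))).card : ℝ) ≤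
      8 * δ * (N / Real.log N) := by
  intro δ hδ
  exact Filter.eventually_atTop.1 (prime_case δ hδ)

end Pool.Agent.Results.MP_e60d4a_nt.AlmostAllPrimes
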